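import Mathlib
import Pool.Agent.Q179.Gab.Main

/-!
# Overcomplete Gabor frames have no bounded orbit representation
-/

set_option autoImplicit false

open MeasureTheory Filter

namespace Pool.Agent.Results.MP_fbf723_an.NoBoundedOrbit

/-- The Hilbert space `L²(ℝ)`. -/
noncomputable abbrev L2R := Lp ℂ 2 (volume : Measure ℝ)

/-- The function `t ↦ exp(2 π i ω t) f(t - x)`. -/
noncomputable def shift (x ω : ℝ) (f : ℝ → ℂ) : ℝ → ℂ := fun t =>
  Complex.exp ((2 * Real.pi * (ω * t) : ℝ) * Complex.I) * f (t - x)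

lemma mp (x : ℝ) : MeasurePreserving (fun t : ℝ => t - x) volume volume :=
  measurePreserving_sub_right volume x

lemma exp_cont (ω : ℝ) :
    Continuous fun t : ℝ => Complex.exp ((2 * Real.pi * (ω * t) : ℝ) * Complex.I) := by fun_prop

lemma shift_congr (x ω : ℝ) {f g : ℝ → ℂ} (h : f =ᵐ[volume] g) :
    shift x ω f =ᵐ[volume] shift x ω g := by
  have := (mp x).quasiMeasurePreserving.ae_eq_comp h
  filter_upwards [this] with t ht
  simp only [shift]
  rw [show f (t - x) = g (t - x) from ht]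

lemma shift_memLp (x ω : ℝ) {f : ℝ → ℂ} (hf : MemLp f 2 volume) :
    MemLp (shift x ω f) 2 volume := by
  have h1 : MemLp (fun t => f (t - x)) 2 volume := hf.comp_measurePreserving (mp x)
  refine h1.congr_norm ((exp_cont ω).aestronglyMeasurable.mul h1.1) ?_
  exact Eventually.of_forall fun t => by
    rw [shift, norm_mul, Complex.norm_exp_ofReal_mul_I, one_mul]

lemma shift_eLpNorm (x ω : ℝ) {f : ℝ → ℂ} (hf : MemLp f 2 volume) :
    eLpNorm (shift x ω f) 2 volume = eLpNorm f 2 volume := by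
  rw [← eLpNorm_comp_measurePreserving hf.1 (mp x)]
  exact eLpNorm_congr_norm_ae (Eventually.of_forall fun t => by
    simp only [shift, norm_mul, Complex.norm_exp_ofReal_mul_I, one_mul, Function.comp_apply])

/-- The time-frequency shift `E_ω T_x` on `L²(ℝ)`: `(E_ω T_x f)(t) = exp(2 π i ω t) f(t - x)`. -/
noncomputable def ET (x ω : ℝ) (f : L2R) : L2R :=
  (shift_memLp x ω (Lp.memLp f)).toLp (shift x ω f)

/-- The Gabor system `E_{mb} T_{na} g`, `(m, n) ∈ ℤ²`. -/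
noncomputable def gabor (g : L2R) (a b : ℝ) (k : ℤ × ℤ) : L2R := ET (k.2 * a) (k.1 * b) g

/-- The time-frequency shift is a linear isometry (not used in the statement). -/
noncomputable def ETi (x ω : ℝ) : L2R →ₗᵢ[ℂ] L2R where
  toFun f := (shift_memLp x ω (Lp.memLp f)).toLp (shift x ω f)
  map_add' f g := by
    rw [← MemLp.toLp_add, MemLp.toLp_eq_toLp_iff]
    refine (shift_congr x ω (Lp.coeFn_add f g)).trans (Eventually.of_forall fun t => ?_)
    simp only [shift, Pi.add_apply]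
    ring
  map_smul' c f := by
    rw [RingHom.id_apply, ← MemLp.toLp_const_smul, MemLp.toLp_eq_toLp_iff]
    refine (shift_congr x ω (Lp.coeFn_smul c f)).trans (Eventually.of_forall fun t => ?_)
    simp only [shift, Pi.smul_apply, smul_eq_mul]
    ring
  norm_map' f := by
    change ‖(shift_memLp x ω (Lp.memLp f)).toLp (shift x ω f)‖ = ‖f‖
    rw [Lp.norm_toLp, shift_eLpNorm x ω (Lp.memLp f), Lp.norm_def]

section frames

variable {H : Type*} [NormedAddCommGroup H] [InnerProductSpace ℂ H]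

/-- Frames. -/
def IsFrame {ι : Type*} (f : ι → H) : Prop :=
  ∃ A B : ℝ, 0 < A ∧ 0 < B ∧ ∀ x : H, Summable (fun k => ‖inner ℂ (f k) x‖ ^ 2) ∧
    A * ‖x‖ ^ 2 ≤ ∑' k, ‖inner ℂ (f k) x‖ ^ 2 ∧ ∑' k, ‖inner ℂ (f k) x‖ ^ 2 ≤ B * ‖x‖ ^ 2

/-- Riesz bases; a frame is a basis if and only if it is a Riesz basis. -/
def IsRieszBasis {ι : Type*} (f : ι → H) : Prop :=
  (∃ A B : ℝ, 0 < A ∧ 0 < B ∧ ∀ (t : Finset ι) (c : ι → ℂ),
    A * ∑ k ∈ t, ‖c k‖ ^ 2 ≤ ‖∑ k ∈ t, c k • f k‖ ^ 2 ∧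
      ‖∑ k ∈ t, c k • f k‖ ^ 2 ≤ B * ∑ k ∈ t, ‖c k‖ ^ 2) ∧
    (Submodule.span ℂ (Set.range f)).topologicalClosure = ⊤

/-- The system `f` has a bounded representation with index set `I` (`ℕ` or `ℤ`): for some ordering
`k ↦ f (e k)`, given by a bijection `e` from `I` to `ℤ²`, some bounded linear operator `T` defined on
the span of the system satisfies `T (f (e k)) = f (e (k + 1))` for every `k`. -/
def HasBoundedRep (I : Type) [Add I] [One I] (f : ℤ × ℤ → H) : Prop :=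
  ∃ (e : I ≃ ℤ × ℤ) (T : Submodule.span ℂ (Set.range f) →L[ℂ] H),
    ∀ k : I, T ⟨f (e k), Submodule.subset_span ⟨e k, rfl⟩⟩ = f (e (k + 1))

end frames

/-! ### The representation -/

open Pool.Agent.Q179.BLT Pool.Agent.Q179.Gab

/-- The operators indexed by the plane. -/
noncomputable def PP (z : ℝ × ℝ) : L2R →ₗᵢ[ℂ] L2R := ETi z.1 z.2

/-- The cocycle. -/
noncomputable def bt : ℝ × ℝ →ₗ[ℝ] ℝ × ℝ →ₗ[ℝ] ℝ :=
  LinearMap.mk₂ ℝ (fun z w => z.1 * w.2)
    (fun z z' w => by simp [add_mul]) (fun c z w => by simp [mul_assoc])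
    (fun z w w' => by simp [mul_add]) (fun c z w => by simp; ring)

lemma PP_toLp (z : ℝ × ℝ) {f : ℝ → ℂ} (hf : MemLp f 2 volume) :
    PP z (hf.toLp f) = (shift_memLp z.1 z.2 hf).toLp (shift z.1 z.2 f) := by
  change (shift_memLp z.1 z.2 (Lp.memLp (hf.toLp f))).toLp (shift z.1 z.2 (hf.toLp f)) = _
  rw [MemLp.toLp_eq_toLp_iff]
  exact shift_congr z.1 z.2 hf.coeFn_toLp

lemma isRep : IsRep bt PP where
  zero x := by
    change (shift_memLp 0 0 (Lp.memLp x)).toLp (shift 0 0 x) = x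
    apply Lp.ext
    refine (MemLp.coeFn_toLp _).trans (Eventually.of_forall fun y => ?_)
    simp [shift]
  comp z w x := by
    have h1 : PP w x = (shift_memLp w.1 w.2 (Lp.memLp x)).toLp (shift w.1 w.2 x) := rfl
    have h2 : PP (z + w) x = (shift_memLp (z + w).1 (z + w).2 (Lp.memLp x)).toLp
      (shift (z + w).1 (z + w).2 x) := rfl
    rw [h1, PP_toLp, h2, ← MemLp.toLp_const_smul, MemLp.toLp_eq_toLp_iff]
    refine Eventually.of_forall fun y => ?_
    have hb : bt z w = z.1 * w.2 := rfl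
    simp only [shift, Pi.smul_apply, smul_eq_mul, Prod.fst_add, Prod.snd_add, E, hb]
    have e1 : Complex.exp ((2 * Real.pi * (z.2 * y) : ℝ) * Complex.I) *
        Complex.exp ((2 * Real.pi * (w.2 * (y - z.1)) : ℝ) * Complex.I) =
        Complex.exp ((2 * Real.pi * (-(z.1 * w.2)) : ℝ) * Complex.I) *
        Complex.exp ((2 * Real.pi * ((z.2 + w.2) * y) : ℝ) * Complex.I) := by
      rw [← Complex.exp_add, ← Complex.exp_add]
      congr 1
      push_cast
      ring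
    have e2 : y - z.1 - w.1 = y - (z.1 + w.1) := by ring
    rw [e2]
    linear_combination (x (y - (z.1 + w.1))) * e1

/-- The lattice. -/
noncomputable def lat (a b : ℝ) : ℤ × ℤ →+ ℝ × ℝ where
  toFun k := (k.2 * a, k.1 * b)
  map_zero' := by simp
  map_add' k l := by
    ext <;> simp [add_mul]

lemma gabor_eq (g : L2R) (a b : ℝ) (k : ℤ × ℤ) : gabor g a b k = PP (lat a b k) g := rfl

/-- The common part of the two cases. -/
lemma riesz_of_rep {I : Type} [DecidableEq I] [Add I] [One I] (g : L2R) (a b : ℝ)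
    (hf : IsFrame (gabor g a b))
    (hcore : ∀ (e : I ≃ ℤ × ℤ) (A B : ℝ) (hB : BB (fun k => PP (lat a b (e k)) g) B), 0 < A →
      (∀ x, A * ‖x‖ ^ 2 ≤ ‖ana _ B hB x‖ ^ 2) → g ≠ 0 → ∀ C : ℝ,
      (∀ (t : Finset I) (c : I → ℂ), ‖∑ k ∈ t, c k • PP (lat a b (e (k + 1))) g‖ ≤
        C * ‖∑ k ∈ t, c k • PP (lat a b (e k)) g‖) → ker hB = ⊥)
    (hrep : HasBoundedRep I (gabor g a b)) : IsRieszBasis (gabor g a b) := by
  classical
  obtain ⟨A, B, hA, hB, hAB⟩ := hf
  obtain ⟨e, T, hT⟩ := hrep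
  have hbb : BB (fun k => PP (lat a b (e k)) g) B := by
    refine ⟨hB.le, fun x s => ?_⟩
    obtain ⟨h1, -, h3⟩ := hAB x
    have h4 : ∑ k ∈ s, ‖inner ℂ (PP (lat a b (e k)) g) x‖ ^ 2 =
        ∑ k ∈ s.map e.toEmbedding, ‖inner ℂ (gabor g a b k) x‖ ^ 2 := by
      rw [Finset.sum_map]; rfl
    rw [h4]
    exact (h1.sum_le_tsum _ fun _ _ => sq_nonneg _).trans h3
  have hlow : ∀ x, A * ‖x‖ ^ 2 ≤ ‖ana _ B hbb x‖ ^ 2 := by
    intro x
    obtain ⟨-, h2, -⟩ := hAB x
    rw [norm_sq_l2]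
    refine h2.trans (le_of_eq ?_)
    rw [← e.tsum_eq]
    rfl
  have hg : g ≠ 0 := by
    rintro rfl
    -- a nonzero element of `L²(ℝ)`
    obtain ⟨x, hx⟩ : ∃ x : L2R, x ≠ 0 := by
      refine ⟨indicatorConstLp 2 (measurableSet_Icc (a := (0:ℝ)) (b := 1)) (by simp) (1:ℂ), ?_⟩
      intro h0
      have h1 : ‖indicatorConstLp 2 (measurableSet_Icc (a := (0:ℝ)) (b := 1))
        (by simp : volume (Set.Icc (0:ℝ) 1) ≠ ⊤) (1:ℂ)‖ = 0 := by rw [h0, norm_zero]
      rw [norm_indicatorConstLp (by norm_num) (by norm_num)] at h1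
      simp [Measure.real] at h1
    obtain ⟨-, h2, -⟩ := hAB x
    have h3 : ∀ k, gabor (0 : L2R) a b k = 0 := fun k => map_zero (PP (lat a b k))
    simp only [h3, inner_zero_left, norm_zero, ne_eq, OfNat.ofNat_ne_zero, not_false_eq_true,
      zero_pow, tsum_zero] at h2
    have : 0 < A * ‖x‖ ^ 2 := by
      have := norm_pos_iff.2 hx
      positivity
    linarith
  have hTb : ∀ (t : Finset I) (c : I → ℂ), ‖∑ k ∈ t, c k • PP (lat a b (e (k + 1))) g‖ ≤
        ‖T‖ * ‖∑ k ∈ t, c k • PP (lat a b (e k)) g‖ := by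
    intro t c
    set y : Submodule.span ℂ (Set.range (gabor g a b)) :=
      ∑ k ∈ t, c k • ⟨gabor g a b (e k), Submodule.subset_span ⟨e k, rfl⟩⟩ with hy
    have h1 : T y = ∑ k ∈ t, c k • PP (lat a b (e (k + 1))) g := by
      rw [hy, map_sum]
      refine Finset.sum_congr rfl fun k _ => ?_
      rw [map_smul, hT]
      rfl
    have h2 : (y : L2R) = ∑ k ∈ t, c k • PP (lat a b (e k)) g := by
      rw [hy, Submodule.coe_sum]
      rfl
    rw [← h1, ← h2]
    exact T.le_opNorm y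
  have hker := hcore e A B hbb hA hlow hg ‖T‖ hTb
  have hriesz := riesz_of_ker hbb hA hlow hker
  -- transport to `ℤ²`
  refine ⟨⟨A, B, hA, hB, fun t c => ⟨?_, ?_⟩⟩, ?_⟩
  · have h1 := hriesz (t.map e.symm.toEmbedding) (fun k => c (e k))
    simpa [Finset.sum_map, gabor_eq] using h1
  · -- the upper bound
    set S : L2R := ∑ k ∈ t, c k • gabor g a b k with hS
    have h1 : ((‖S‖ ^ 2 : ℝ) : ℂ) = ∑ k ∈ t, (starRingEnd ℂ) (c k) * inner ℂ (gabor g a b k) S := by
      have h2 : inner ℂ S S = ((‖S‖ ^ 2 : ℝ) : ℂ) := by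
        rw [inner_self_eq_norm_sq_to_K]; simp
      rw [← h2]
      conv_lhs => rw [hS, sum_inner]
      refine Finset.sum_congr rfl fun k _ => ?_
      rw [inner_smul_left, ← hS]
    have h2 : ‖S‖ ^ 2 ≤ ∑ k ∈ t, ‖c k‖ * ‖inner ℂ (gabor g a b k) S‖ := by
      have h3 : (‖S‖ ^ 2 : ℝ) = ‖((‖S‖ ^ 2 : ℝ) : ℂ)‖ := by
        rw [Complex.norm_real, Real.norm_of_nonneg (by positivity)]
      rw [h3, h1]
      refine (norm_sum_le _ _).trans (Finset.sum_le_sum fun k _ => ?_)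
      rw [norm_mul, RCLike.norm_conj]
    have h3 := h2.trans (Real.sum_mul_le_sqrt_mul_sqrt _ _ _)
    obtain ⟨s1, -, s3⟩ := hAB S
    have h4 : √(∑ k ∈ t, ‖inner ℂ (gabor g a b k) S‖ ^ 2) ≤ √(B * ‖S‖ ^ 2) :=
      Real.sqrt_le_sqrt ((s1.sum_le_tsum _ fun _ _ => sq_nonneg _).trans s3)
    rw [Real.sqrt_mul hB.le, Real.sqrt_sq (norm_nonneg _)] at h4
    set Q := √(∑ k ∈ t, ‖c k‖ ^ 2) with hQ
    have hQ0 : 0 ≤ Q := Real.sqrt_nonneg _
    have hQ2 : Q ^ 2 = ∑ k ∈ t, ‖c k‖ ^ 2 :=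
      Real.sq_sqrt (Finset.sum_nonneg fun _ _ => sq_nonneg _)
    have h5 : ‖S‖ ^ 2 ≤ Q * (√B * ‖S‖) := h3.trans (by gcongr)
    rw [← hQ2]
    rcases (norm_nonneg S).lt_or_eq with h6 | h6
    · have h7 : ‖S‖ * ‖S‖ ≤ (Q * √B) * ‖S‖ := by nlinarith
      have h8 : ‖S‖ ≤ Q * √B := le_of_mul_le_mul_right h7 h6
      calc ‖S‖ ^ 2 ≤ (Q * √B) ^ 2 := pow_le_pow_left₀ (norm_nonneg _) h8 2
        _ = B * Q ^ 2 := by rw [mul_pow, Real.sq_sqrt hB.le]; ring
    · rw [← h6]
      have : 0 ≤ B * Q ^ 2 := by positivity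
      simpa using this
  · rw [Submodule.topologicalClosure_eq_top_iff, Submodule.eq_bot_iff]
    intro x hx
    obtain ⟨-, h2, -⟩ := hAB x
    have h3 : ∀ k, inner ℂ (gabor g a b k) x = 0 := fun k =>
      (Submodule.mem_orthogonal _ x).1 hx _ (Submodule.subset_span ⟨k, rfl⟩)
    simp only [h3, norm_zero, ne_eq, OfNat.ofNat_ne_zero, not_false_eq_true, zero_pow,
      tsum_zero] at h2
    by_contra hx0
    have : 0 < A * ‖x‖ ^ 2 := by
      have := norm_pos_iff.2 hx0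
      positivity
    linarith

/-- **No overcomplete Gabor frame has a bounded orbit representation.** If the Gabor system
`{E_{mb} T_{na} g}` is a frame for `L²(ℝ)` which is not a Riesz basis, then it has a bounded
representation neither for the index set `ℕ` nor for the index set `ℤ`. -/
theorem result : ∀ (g : L2R) (a b : ℝ), 0 < a → 0 < b → IsFrame (gabor g a b) →
    ¬ IsRieszBasis (gabor g a b) →
      ¬ HasBoundedRep ℕ (gabor g a b) ∧ ¬ HasBoundedRep ℤ (gabor g a b) := by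
  intro g a b _ _ hf hn
  refine ⟨fun h => hn (riesz_of_rep g a b hf ?_ h), fun h => hn (riesz_of_rep g a b hf ?_ h)⟩
  · intro e A B hB hA hlow hg C hC
    exact no_nat isRep (lat a b) g e hB hA hlow hg C hC
  · intro e A B hB hA hlow hg C hC
    exact no_int isRep (lat a b) g e hB hA hlow hg C hC

end Pool.Agent.Results.MP_fbf723_an.NoBoundedOrbit
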